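import Pool.Agent.H78.OX.Defs
import Pool.Agent.H70.PX.Evn

/-!
# For every k an oracle with Σ_k in EQP, Σ_(k+1) ∩ Π_(k+1) not in BQP: module targets
-/

set_option autoImplicit false

namespace Pool.Agent.H78.OX

open Finset Filter Pool.Agent.H6.NB Pool.Agent.H70.OQ Pool.Agent.H70.EH Pool.Agent.H70.PX
  Pool.Agent.H78.XQ Pool.Agent.H70.PW

/-! ## Part A: the correction strings -/

/-- HW2: a formula on strings of given weight, both inequalities. -/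
def T_HW2 : Prop := ∀ (V : Type) [Fintype V] [DecidableEq V] [Nonempty V] (S d w W : ℕ) (δ : ℝ)
  (f : (V → Bool) → Bool), 1 ≤ w → 0 ≤ δ → Cl V S (d + 1) f → W ≤ Fintype.card V →
  |(W : ℝ) - Fintype.card V / 2| ≤ δ * Fintype.card V →
  |wm (fun _ => none) W (fun y => bi (f y)) - mn fun y => bi (f y)| ≤
    (12 * w * δ + 4 * w ^ 2 / Fintype.card V) * (128 * (w : ℝ)) ^ (d + 1) +
      (((S : ℝ) + 1) ^ (d + 1) / 2 ^ w + 4 * Real.exp (-(Fintype.card V * δ ^ 2 / 4)))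

open Classical in
/-- GDX: the copies say the bit with high probability. -/
def T_GDX : Prop := ∀ (s : List Bool) (b : Bool), 100 ≤ s.length →
  ∑ P : Fin (2 ^ (2 * s.length)) → VV (qs s) → Bool, (∏ i, mu b (qs s) (P i)) *
    (if gdx s b P then 0 else 1) ≤ (1 / 4) ^ s.length

/-- WTX: the weight of the correction string. -/
def T_WTX : Prop := ∀ (s : List Bool) (b : Bool) (P : Fin (2 ^ (2 * s.length)) → VV (qs s) → Bool),
  100 ≤ s.length → gdx s b P → wtx s b P ≤ 2 ^ wlx s ∧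
    |(wtx s b P : ℝ) - 2 ^ wlx s / 2| ≤ dvx s * 2 ^ wlx s ∧
    ∀ y : (Fin (wlx s) → Bool) → Bool, nt y = wtx s b P → FitX s b P y

/-- COX: formulas do not see the correction strings. -/
def T_COX : Prop := ∀ (s : List Bool) (b : Bool) (P : Fin (2 ^ (2 * s.length)) → VV (qs s) → Bool)
  (S D w : ℕ) (f : ((Fin (wlx s) → Bool) → Bool) → Bool), 100 ≤ s.length → gdx s b P → 1 ≤ w →
  Cl (Fin (wlx s) → Bool) S (D + 1) f →
  |wm (fun _ => none) (wtx s b P) (fun y => bi (f y)) - mn fun y => bi (f y)| ≤ erx s S (D + 1) w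

/-- NMX: estimates for the error terms. -/
def T_NMX : Prop := ∀ (n : ℕ) (s : List Bool) (S D w : ℕ), 10 ≤ n → n ^ 2 ≤ s.length → 1 ≤ w →
  (128 * (w : ℝ)) ^ (2 * D) * ((w : ℝ) ^ 2 + (2 * 2 ^ qs s) ^ 2 * ((S : ℝ) + 1) ^ D / 2 ^ w) + 1 ≤
    2 ^ n →
  ((2 ^ (2 * s.length) : ℕ) : ℝ) * ((2 ^ n - 1 + 1) / √(2 ^ qs s)) + 2 * erx s S D w ≤
    (1 / 4) ^ s.length

/-! ## Part B: the existence of a good configuration -/

open Classical in
/-- CBX: the property of not being typical is in the class. -/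
def T_CBX : Prop := ∀ (V X B Ω : Type) [Fintype X] [DecidableEq X] [Fintype Ω]
  [DecidableEq Ω] (nn qb : Ω → ℕ) (D : Ω → (PosG B Ω nn qb → Bool) → Bool) (lev : Ω → ℕ)
  (S t d h S' M : ℕ) (K : ℕ → ℕ), Syg D lev S t d h → 2 ≤ S' → S ≤ S' → 2 ^ t ≤ S' →
  (∀ j, j < h → K j ≤ M) → M + 1 ≤ S' → Fintype.card Ω * Fintype.card X ^ (M + 1) ≤ S' →
  1 ≤ Fintype.card X →
  ∀ (T : (V → Bool) → B → Bool) (U : (V → Bool) → X → B → Bool) (e : Ω → Bool)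
    (P : (V → Bool) → Blk nn qb), (∀ b, Cl V S' 0 fun y => T y b) →
    (∀ x b, Cl V S' 0 fun y => U y x b) → (∀ s i v, Cl V S' 0 fun y => P y s i v) →
    Cl V S' ((d + 5) * h + 2) fun y => decide (¬ TyG (accG D (P y)) lev h K h (T y) (U y) e)

open Classical in
/-- EXX: there is a good configuration, with correction strings. `gd` says that the copies are good,
`wt` is the weight of the correction string. -/
def T_EXX : Prop := ∀ (W X B Ω : Type) [Fintype W] [Nonempty W] [Fintype X] [DecidableEq X]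
  [Fintype Ω] [DecidableEq Ω] (nn qb rr : Ω → ℕ) (T : W → B → Bool) (U : W → X → B → Bool)
  (D : Ω → (PosG (Bz B Ω rr) Ω nn qb → Bool) → Bool) (lev : Ω → ℕ) (S t d h S' M : ℕ)
  (w r k : ℕ → ℕ) (δ : ℕ → ℝ) (δm Λ : ℝ)
  (gd : ∀ s, Bool → (Fin (nn s) → VV (qb s) → Bool) → Prop)
  (wt : ∀ s, Bool → (Fin (nn s) → VV (qb s) → Bool) → ℕ) (γ η : Ω → ℝ),
  Syg D lev S t d h → LowD D lev → Prm (Fintype.card X) S t d h w r k δ →
  (∀ f : (B → Bool) → Bool, Fm S t d f → ((univ.filter fun p : W =>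
    k 0 < (univ.filter fun x => f (U p x) ≠ f (T p)).card).card : ℝ) ≤ δ 0 * Fintype.card W) →
  (∀ j < h, δ j ≤ δm) → 1 ≤ Fintype.card X → 2 ≤ S' → S ≤ S' → 2 ^ t ≤ S' →
  (∀ j, j < h → k j ≤ M) → M + 1 ≤ S' → Fintype.card Ω * Fintype.card X ^ (M + 1) ≤ S' →
  (∀ s, 10 ≤ qb s) →
  (∀ s f, Cl (VV (qb s)) S' ((d + 5) * h + 2) f → L12 (fun y => bi (f y)) ≤ Λ) →
  (∀ s b, ∑ P : Fin (nn s) → VV (qb s) → Bool, (∏ i, mu b (qb s) (P i)) *
    (if gd s b P then 0 else 1) ≤ γ s) →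
  (∀ s b P, gd s b P → wt s b P ≤ 2 ^ rr s ∧ ∀ f : ((Fin (rr s) → Bool) → Bool) → Bool,
    Cl (Fin (rr s) → Bool) S' ((d + 5) * h + 2) f →
      |wm (fun _ => none) (wt s b P) (fun y => bi (f y)) - mn fun y => bi (f y)| ≤ η s) →
  (∀ s, 0 ≤ η s) → Fintype.card Ω * δm ≤ 1 / 4 →
  ∑ s, ((nn s : ℝ) * ((Λ + 1) / √(2 ^ qb s)) + 2 * η s) ≤ 1 / 4 → ∑ s, γ s ≤ 1 / 4 →
  ∃ (p : W) (κ : Ω → Bool) (P : Blk nn qb) (z : (Σ s : Ω, Fin (rr s) → Bool) → Bool),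
    TyG (accG D P) lev h k h (Sum.elim (T p) z) (fun x => Sum.elim (U p x) z)
      (elG (accG D P) (Sum.elim (T p) z) κ h) ∧
    ∀ s, gd s (κ s) (P s) ∧ nt (fun v : Fin (rr s) → Bool => z ⟨s, v⟩) = wt s (κ s) (P s)

/-- CFX: there is a good configuration for every stage. -/
def T_CFX : Prop := ∀ (J c C : ℕ) (ε : ℝ), 0 < ε → ∃ a : ℕ, ∀ᶠ n : ℕ in atTop,
  ∃ (t M : ℕ) (K : ℕ → ℕ), 2 ≤ n ∧ n ^ c + c ≤ n ^ 2 ^ a ∧ 2 ^ (J + 2) * n + 1 ≤ n ^ 2 ^ a ∧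
  n ^ 2 ^ a ≤ t ^ 2 ∧ 1 ≤ M ∧ (∀ j < a, K j ≤ M) ∧
  4 * (C * 2 ^ ((1 / 2 - ε) * n)) * √(M / 2 ^ n) < 1 / 3 ∧
  ∀ D : Om n (2 ^ a) → (Cgx (J + 1) n (2 ^ a) → Bool) → Bool,
    Syg D (fun s => lv n s.1) (2 ^ t) t (J + 1) a → LowD D (fun s => lv n s.1) →
    ∃ (H : Hid (Fin n → Bool) (Ys n) (J + 1)) (κ : Om n (2 ^ a) → Bool) (P : Bkx n (2 ^ a))
      (z : Zx n (2 ^ a)),
      TyG (accG D P) (fun s => lv n s.1) a K a (Sum.elim (tabT (J + 1) H) z)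
        (fun x => Sum.elim (tabU (J + 1) H x) z)
        (elG (accG D P) (Sum.elim (tabT (J + 1) H) z) κ a) ∧
      ∀ s : Om n (2 ^ a), FitX s.1 (κ s) (P s) fun v => z ⟨s, v⟩

/-! ## Part C: the quantum algorithm -/

/-- EAX: the algorithm is exact if the correction string fits. -/
def T_EAX : Prop := ∀ (O : List Bool → Bool) (s : List Bool) (b : Bool),
  Fit (qs s) (rnx s) (wlx s) b (cps O s) (fun z => O (wps s (List.ofFn z))) →
  (exc s).prob O = if b then 1 else 0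

/-- YXX: the quantum algorithm is exact for the oracle built from a good seed. -/
def T_YXX : Prop := ∀ (A : List Bool → (List Bool → Bool) → Prop) (σ O : List Bool → Bool)
  (s : List Bool), Bldg A σ O → DecX σ s → (A s O → yesX O s = 1) ∧ (¬ A s O → yesX O s = 0)

/-- DCX: the condition depends on finitely many strings. -/
def T_DCX : Prop := ∀ s : List Bool, ∃ l, ∀ σ σ' : List Bool → Bool,
  (∀ w, w.length ≤ l → σ w = σ' w) → (DecX σ s ↔ DecX σ' s)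

/-- INX: there is a good seed at the beginning. -/
def T_INX : Prop := ∀ k : ℕ, ∃ σ : List Bool → Bool, (∀ s, DecX σ s) ∧ OneSpecial k σ

/-! ## Part D: strings -/

/-- CLX: the classification of the strings. -/
def T_CLX : Prop := ∀ (J n a : ℕ) (o : List Bool → Bool),
  (∀ p : Nn n J, clx J n a o (false :: nstr n J p) = .bas (.inl p)) ∧
  (∀ s : Om n a, clx J n a o (key s.1) = .key s) ∧
  (∀ (s : Om n a) (i : Fin (2 ^ (2 * s.1.length))) (v : VV (qs s.1)),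
    clx J n a o (bx s.1 i v) = .blk s i v) ∧
  (∀ (s : Om n a) (z : Fin (wlx s.1) → Bool), clx J n a o (wx s.1 z) = .bas (.inr ⟨s, z⟩)) ∧
  (∀ w, (∃ p : Nn n J, w = false :: nstr n J p) ∨ (∃ s : Om n a, w = key s.1) ∨
    (∃ (s : Om n a) (i : Fin (2 ^ (2 * s.1.length))) (v : VV (qs s.1)), w = bx s.1 i v) ∨
    (∃ (s : Om n a) (z : Fin (wlx s.1) → Bool), w = wx s.1 z) ∨ clx J n a o w = .cst (o w))

/-- LNX: the lengths and the shapes of the strings. -/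
def T_LNX : Prop := (∀ s, (key s).length = s.length + 2) ∧
  (∀ s i v, s.length + 2 ≤ (bx s i v).length) ∧ (∀ s z, s.length + 2 ≤ (wx s z).length) ∧
  (∀ s s' i v, bx s i v ≠ key s') ∧ (∀ s s' z, wx s z ≠ key s') ∧
  (∀ u s, false :: u ≠ key s) ∧ (∀ u s i v, false :: u ≠ bx s i v) ∧
  (∀ u s z, false :: u ≠ wx s z) ∧ (∀ s s', key s = key s' → s = s') ∧
  (∀ s s' i v i' v', bx s i v = bx s' i' v' → s = s') ∧
  (∀ s s' z z', wx s z = wx s' z' → s = s') ∧ ∀ s s' i v z, bx s i v ≠ wx s' z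

/-- LKX: the values of the oracle of the stage. -/
def T_LKX : Prop := ∀ (J : ℕ) (A : List Bool → (List Bool → Bool) → Prop) (n a : ℕ)
  (σ₀ O₀ O : List Bool → Bool) (T : Nn n J → Bool) (κ : Om n a → Bool) (P : Bkx n a) (z : Zx n a),
  LocA A → 2 ≤ n → Bldg A σ₀ O₀ → Bldg A (sdx J n a σ₀ T κ P z) O → ∀ w, w.length ≤ n ^ a →
  O w = vlG (Sum.elim T z) (fun s : Om n a => O (key s.1)) P (clx J n a O₀ w)

/-- LWX: short strings have low positions. -/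
def T_LWX : Prop := ∀ (J n a : ℕ) (o : List Bool → Bool) (s : Om n (2 ^ a)) (w : List Bool) (m : ℕ),
  2 ≤ n → m ^ 2 ≤ s.1.length → w.length ≤ m →
  LwX (fun s : Om n (2 ^ a) => lv n s.1) (lv n s.1) (clx J n (2 ^ a) o w)

/-- FMX: the instances as formulas. -/
def T_FMX : Prop := ∀ (k J : ℕ), k ≤ J → ∀ (prog : List Bool → List (List Bool) → DT) (n a t : ℕ)
  (o : List Bool → Bool), Smallk k prog → 2 ≤ n → n ^ 2 ^ a ≤ t ^ 2 →
  ∃ D : Om n (2 ^ a) → (Cgx J n (2 ^ a) → Bool) → Bool,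
    Syg D (fun s => lv n s.1) (2 ^ t) t J a ∧ LowD D (fun s => lv n s.1) ∧
    ∀ (s : Om n (2 ^ a)) T e P, (acck k prog s.1 (fun w => vlG T e P (clx J n (2 ^ a) o w)) ↔
      accG D P s T e = true)

/-- WFX: the formula of a machine. -/
def T_WFX : Prop := ∀ (J' J n a t : ℕ) (o : List Bool → Bool) (W : Machine J), 2 ≤ n →
  n ^ W.c + W.c + 1 ≤ t → ∀ s : Om n (2 ^ a), (n ^ W.c + W.c) ^ 2 ≤ s.1.length →
  ∃ f : (Cgx J' n (2 ^ a) → Bool) → Bool, Fm (2 ^ t) t J f ∧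
    (∀ y y', (∀ c, LwX (fun s : Om n (2 ^ a) => lv n s.1) (lv n s.1) c → y c = y' c) →
      f y = f y') ∧
    ∀ y, (f y = true ↔ List.replicate n false ∈ W.lang fun w => y (clx J' n (2 ^ a) o w))

/-- FXD: the encrypted answers of the stage solve the recursion. -/
def T_FXD : Prop := ∀ (A : List Bool → (List Bool → Bool) → Prop), LocA A → ∀ (J n a : ℕ), 2 ≤ n →
  ∀ (σ₀ O₀ O : List Bool → Bool), Bldg A σ₀ O₀ → ∀ (T : Nn n J → Bool) (κ : Om n (2 ^ a) → Bool)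
  (P : Bkx n (2 ^ a)) (z : Zx n (2 ^ a)), Bldg A (sdx J n (2 ^ a) σ₀ T κ P z) O →
  ∀ D : Om n (2 ^ a) → (Cgx J n (2 ^ a) → Bool) → Bool,
  (∀ (s : Om n (2 ^ a)) T e P, (A s.1 (fun w => vlG T e P (clx J n (2 ^ a) O₀ w)) ↔
    accG D P s T e = true)) → ∀ s : Om n (2 ^ a),
  O (key s.1) = xor (accG D P s (Sum.elim T z) fun s => O (key s.1)) (κ s)

/-- DAX: the seed of the stage is good. -/
def T_DAX : Prop := ∀ (J n a : ℕ) (σ₀ : List Bool → Bool), (∀ s, DecX σ₀ s) →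
  ∀ (T : Nn n J → Bool) (κ : Om n (2 ^ a) → Bool) (P : Bkx n (2 ^ a)) (z : Zx n (2 ^ a)),
  (∀ s : Om n (2 ^ a), FitX s.1 (κ s) (P s) fun v => z ⟨s, v⟩) →
  ∀ s, DecX (sdx J n (2 ^ a) σ₀ T κ P z) s

/-- FWX: at every short string only few rows matter. -/
def T_FWX : Prop := ∀ (A : List Bool → (List Bool → Bool) → Prop), LocA A → ∀ (J n a : ℕ), 2 ≤ n →
  ∀ (σ₀ O₀ O₁ : List Bool → Bool), Bldg A σ₀ O₀ → ∀ (H : Hid (Fin n → Bool) (Ys n) J)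
  (κ : Om n (2 ^ a) → Bool) (P : Bkx n (2 ^ a)) (z : Zx n (2 ^ a)),
  Bldg A (sdx J n (2 ^ a) σ₀ (tabT J H) κ P z) O₁ → ∀ O : (Fin n → Bool) → List Bool → Bool,
  (∀ x, Bldg A (sdx J n (2 ^ a) σ₀ (tabU J H x) κ P z) (O x)) → ∀ M : ℕ, 1 ≤ M →
  (∀ s : Om n (2 ^ a), (univ.filter fun x => O x (key s.1) ≠ O₁ (key s.1)).card ≤ M) →
  ∀ w : List Bool, w.length ≤ n ^ 2 ^ a → (univ.filter fun x => O x w ≠ O₁ w).card ≤ M

/-- SDX: the seed of the stage at other strings. -/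
def T_SDX : Prop := ∀ (J n a : ℕ), 2 ≤ n → ∀ (σ₀ : List Bool → Bool) (T : Nn n J → Bool)
  (κ : Om n (2 ^ a) → Bool) (P : Bkx n (2 ^ a)) (z : Zx n (2 ^ a)),
  (∀ w : List Bool, w.length < n → sdx J n (2 ^ a) σ₀ T κ P z w = σ₀ w) ∧
  (∀ w : List Bool, w.length ≠ (2 ^ (J + 1) - 1) * n →
    sdx J n (2 ^ a) σ₀ T κ P z (false :: w) = σ₀ (false :: w)) ∧
  ∀ p : Nn n J, sdx J n (2 ^ a) σ₀ T κ P z (false :: nstr n J p) = T p

/-- SPX: the special strings of the seed of the stage. -/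
def T_SPX : Prop := ∀ (J n a : ℕ) (σ₀ : List Bool → Bool) (H : Hid (Fin n → Bool) (Ys n) J)
  (κ : Om n (2 ^ a) → Bool) (P : Bkx n (2 ^ a)) (z : Zx n (2 ^ a)) (u : List Bool), u.length = n →
  ¬ Special J (sdx J n (2 ^ a) σ₀ (tabT J H) κ P z) u ∧
  ∀ x : Fin n → Bool, (Special J (sdx J n (2 ^ a) σ₀ (tabU J H x) κ P z) u ↔ u = List.ofFn x)

/-! ## Part E: the stages -/

/-- STX: the configuration of a stage for quantum algorithms; the machines have `k + 1` quantifiers. -/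
def T_STX : Prop := ∀ (k c C : ℕ) (ε : ℝ), 0 < ε → ∀ prog, Smallk (k + 1) prog →
  ∀ᶠ n : ℕ in atTop, ∀ σ₀ : List Bool → Bool, (∀ s, DecX σ₀ s) → ∃ (a M : ℕ)
    (H : Hid (Fin n → Bool) (Ys n) (k + 1)) (κ : Om n (2 ^ a) → Bool) (P : Bkx n (2 ^ a))
    (z : Zx n (2 ^ a)) (O₁ : List Bool → Bool) (O : (Fin n → Bool) → List Bool → Bool),
    2 ≤ n ∧ n ^ c + c ≤ n ^ 2 ^ a ∧ 2 ^ (k + 2) * n + 1 ≤ n ^ 2 ^ a ∧ 1 ≤ M ∧
    4 * (C * 2 ^ ((1 / 2 - ε) * n)) * √(M / 2 ^ n) < 1 / 3 ∧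
    Bldg (acck (k + 1) prog) (sdx (k + 1) n (2 ^ a) σ₀ (tabT (k + 1) H) κ P z) O₁ ∧
    (∀ x, Bldg (acck (k + 1) prog) (sdx (k + 1) n (2 ^ a) σ₀ (tabU (k + 1) H x) κ P z) (O x)) ∧
    (∀ T : Nn n (k + 1) → Bool, ∀ s, DecX (sdx (k + 1) n (2 ^ a) σ₀ T κ P z) s) ∧
    ∀ w : List Bool, w.length ≤ n ^ 2 ^ a → (univ.filter fun x => O x w ≠ O₁ w).card ≤ M

/-- SGX: one stage of the construction, for a quantum algorithm; the machines have `k + 1` quantifiers. -/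
def T_SGX : Prop := ∀ (k c C : ℕ) (ε : ℝ), 0 < ε → ∀ prog, Smallk (k + 1) prog →
  ∀ᶠ n : ℕ in atTop, ∀ Q : QAlg, Q.Short (n ^ c + c) → (Q.T : ℝ) ≤ C * 2 ^ ((1 / 2 - ε) * n) →
  ∀ σ₀ : List Bool → Bool, (∀ s, DecX σ₀ s) →
  ∃ (σ : List Bool → Bool) (m : ℕ),
    (∀ w, w.length < n → σ w = σ₀ w) ∧ (∀ s, DecX σ s) ∧
    (∀ u : List Bool, u.length ≠ n → (Special (k + 1) σ u ↔ Special (k + 1) σ₀ u)) ∧
    (∃! u : List Bool, u.length = n ∧ Special (k + 1) σ u) ∧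
    ∀ σ' O, (∀ w, w.length ≤ m → σ' w = σ w) → Bldg (acck (k + 1) prog) σ' O →
      ¬ Correct Q O (hlang (k + 1) O) (List.replicate n false)

/-- SQX: one stage of the construction, for a quantum verifier; the machines have `k + 1` quantifiers. -/
def T_SQX : Prop := ∀ (k c C : ℕ) (ε : ℝ), 0 < ε → ∀ prog, Smallk (k + 1) prog →
  ∀ᶠ n : ℕ in atTop, ∀ R : QVer, R.alg.Short (n ^ c + c) →
  (R.alg.T : ℝ) ≤ C * 2 ^ ((1 / 2 - ε) * n) → ∀ σ₀ : List Bool → Bool, (∀ s, DecX σ₀ s) →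
  ∃ (σ : List Bool → Bool) (m : ℕ),
    (∀ w, w.length < n → σ w = σ₀ w) ∧ (∀ s, DecX σ s) ∧
    (∀ u : List Bool, u.length ≠ n → (Special (k + 1) σ u ↔ Special (k + 1) σ₀ u)) ∧
    ∀ σ' O, (∀ w, w.length ≤ m → σ' w = σ w) → Bldg (acck (k + 1) prog) σ' O →
      ¬ VCorrect R O (hlang (k + 1) O)ᶜ (List.replicate n false)

/-- SMX: one stage of the construction, for a machine with `J + 1` quantifiers; the machines of the oracle
have `k + 1 ≤ J + 1` quantifiers. -/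
def T_SMX : Prop := ∀ (k J c : ℕ), k ≤ J → ∀ prog, Smallk (k + 1) prog →
  ∀ᶠ n : ℕ in atTop, ∀ W : Machine (J + 1), W.c = c →
  ∀ σ₀ : List Bool → Bool, (∀ s, DecX σ₀ s) →
  ∃ (σ : List Bool → Bool) (m : ℕ),
    (∀ w, w.length < n → σ w = σ₀ w) ∧ (∀ s, DecX σ s) ∧
    (∀ w : List Bool, w.length ≠ (2 ^ (J + 2) - 1) * n → σ (false :: w) = σ₀ (false :: w)) ∧
    ∀ σ' O, (∀ w, w.length ≤ m → σ' w = σ w) → Bldg (acck (k + 1) prog) σ' O →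
      ¬ (List.replicate n false ∈ W.lang O ↔ List.replicate n false ∈ hlang (J + 1) O)

/-- FNX: the theorem. -/
def T_FNX : Prop := ∀ (k : ℕ), 1 ≤ k → ∀ (V : ℕ → Machine k) (Q : ℕ → List Bool → QAlg)
  (R : ℕ → List Bool → QVer) (l : ℕ → ℕ) (W : ∀ i, Machine (l i)), (∀ i, k ≤ l i) →
  (∀ j, ∃ (c C : ℕ) (ε : ℝ), 0 < ε ∧ ∀ x : List Bool, (Q j x).Short (x.length ^ c + c) ∧
    ((Q j x).T : ℝ) ≤ C * 2 ^ ((1 / 2 - ε) * x.length)) →
  (∀ j, ∃ (c C : ℕ) (ε : ℝ), 0 < ε ∧ ∀ x : List Bool, (R j x).alg.Short (x.length ^ c + c) ∧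
    ((R j x).alg.T : ℝ) ≤ C * 2 ^ ((1 / 2 - ε) * x.length)) →
  ∃ O : List Bool → Bool,
    (∀ i x, (x ∈ (V i).lang O → yesX O (inst (V i).c i x) = 1) ∧
      (x ∉ (V i).lang O → yesX O (inst (V i).c i x) = 0)) ∧
    OneSpecialE k O ∧
    (∀ j m, ∃ n ≥ m, Even n ∧
      ¬ Correct (Q j (List.replicate n false)) O (hlang k O) (List.replicate n false)) ∧
    (∀ j m, ∃ n ≥ m,
      ¬ VCorrect (R j (List.replicate n false)) O (hlang k O)ᶜ (List.replicate n false)) ∧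
    ∀ i m, ∃ n ≥ m, ¬ (List.replicate n false ∈ (W i).lang O ↔
      List.replicate n false ∈ hlang (l i) O)

end Pool.Agent.H78.OX
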