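import Pool.Agent.H78.OX.Targets
import Pool.Agent.H35.NB.EXI

/-!
# EXX: there is a good configuration, with correction strings
-/

set_option autoImplicit false

namespace Pool.Agent.H78.OX.EXX

open Finset Pool.Agent.H6.NB Pool.Agent.H70.OQ Pool.Agent.H70.EH Pool.Agent.H78.XQ
  Pool.Agent.H78.OX Pool.Agent.H35.NB.E

/-- The strings of weight `W` exist. -/
theorem ws_nonempty {r W : ℕ} (hW : W ≤ 2 ^ r) :
    (ws (fun _ : Fin r → Bool => none) W).Nonempty := by
  classical
  obtain ⟨A, -, hA⟩ := Finset.exists_subset_card_eq (s := (univ : Finset (Fin r → Bool))) (n := W)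
    (by rw [card_univ]; simpa using hW)
  refine ⟨fun v => decide (v ∈ A), ?_⟩
  unfold ws
  rw [Finset.mem_filter]
  refine ⟨mem_univ _, fun v b hv => by simp at hv, ?_⟩
  unfold nt
  rw [← hA]
  congr 1
  ext v
  simp

open Classical in
/-- The distribution of the correction string. -/
noncomputable def kr {r : ℕ} (g : Prop) (W : ℕ) (y : (Fin r → Bool) → Bool) : ℝ :=
  if g then (if nt y = W then 1 / ((ws (fun _ : Fin r → Bool => none) W).card : ℝ) else 0)
  else 1 / 2 ^ 2 ^ r

theorem kr_nonneg {r : ℕ} (g : Prop) (W : ℕ) (y : (Fin r → Bool) → Bool) : 0 ≤ kr g W y := by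
  unfold kr
  split_ifs <;> positivity

theorem card_str (r : ℕ) : (Fintype.card ((Fin r → Bool) → Bool) : ℝ) = 2 ^ 2 ^ r := by
  rw [Fintype.card_fun, Fintype.card_fun, Fintype.card_bool, Fintype.card_fin]
  push_cast
  rfl

open Classical in
theorem kr_sum {r : ℕ} (g : Prop) (W : ℕ) (F : ((Fin r → Bool) → Bool) → ℝ) :
    ∑ y, kr g W y * F y = if g then wm (fun _ => none) W F else mn F := by
  by_cases hg : g
  · simp only [kr, if_pos hg]
    unfold wm
    rw [Finset.sum_div]
    have h1 : ∀ y : (Fin r → Bool) → Bool, (if nt y = W then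
        1 / ((ws (fun _ : Fin r → Bool => none) W).card : ℝ) else 0) * F y =
        if y ∈ ws (fun _ : Fin r → Bool => none) W then
          F y / ((ws (fun _ : Fin r → Bool => none) W).card : ℝ) else 0 := by
      intro y
      have h2 : y ∈ ws (fun _ : Fin r → Bool => none) W ↔ nt y = W := by
        unfold ws
        rw [Finset.mem_filter]
        constructor
        · intro h
          exact h.2.2
        · intro h
          exact ⟨mem_univ _, fun v b hv => by simp at hv, h⟩
      by_cases h : nt y = W
      · rw [if_pos h, if_pos (h2.2 h)]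
        ring
      · rw [if_neg h, if_neg (fun h' => h (h2.1 h')), zero_mul]
    rw [Finset.sum_congr rfl fun y _ => h1 y, Finset.sum_ite_mem, Finset.univ_inter]
  · simp only [kr, if_neg hg]
    unfold mn
    rw [Finset.sum_div]
    refine Finset.sum_congr rfl fun y _ => ?_
    have : Fintype.card (Fin r → Bool) = 2 ^ r := by simp
    rw [this]
    ring

theorem mn_one {r : ℕ} : mn (fun _ : (Fin r → Bool) → Bool => (1 : ℝ)) = 1 := by
  unfold mn
  rw [Finset.sum_const, Finset.card_univ, nsmul_eq_mul, card_str, mul_one]
  have : Fintype.card (Fin r → Bool) = 2 ^ r := by simp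
  rw [this]
  exact div_self (by positivity)

open Classical in
theorem kr_total {r : ℕ} (g : Prop) (W : ℕ) (hW : g → W ≤ 2 ^ r) :
    ∑ y : (Fin r → Bool) → Bool, kr g W y = 1 := by
  have h := kr_sum (r := r) g W fun _ => 1
  simp only [mul_one] at h
  rw [h]
  by_cases hg : g
  · rw [if_pos hg]
    unfold wm
    rw [Finset.sum_const, nsmul_eq_mul, mul_one]
    refine div_self ?_
    exact_mod_cast (Finset.card_pos.2 (ws_nonempty (hW hg))).ne'
  · rw [if_neg hg, mn_one]

theorem mn_comm {ι : Type} [Fintype ι] {r : ℕ} (a : ι → ℝ) (F : ι → ((Fin r → Bool) → Bool) → ℝ) :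
    ∑ i, a i * mn (F i) = (∑ y, ∑ i, a i * F i y) / 2 ^ Fintype.card (Fin r → Bool) := by
  unfold mn
  rw [Finset.sum_comm, Finset.sum_div]
  refine Finset.sum_congr rfl fun i _ => ?_
  rw [← Finset.mul_sum, mul_div_assoc]

open Classical in
/-- One instance. -/
theorem one_inst {A : Type} [Fintype A] {r : ℕ} (m : Bool → A → ℝ) (gd : Bool → A → Prop)
    (wt : Bool → A → ℕ) (F : A × ((Fin r → Bool) → Bool) → ℝ) (η ζ : ℝ) (hη : 0 ≤ η)
    (hm : ∀ b p, 0 ≤ m b p) (hm1 : ∀ b, ∑ p, m b p = 1)
    (hgd : ∀ b p, gd b p → |wm (fun _ => none) (wt b p) (fun y => F (p, y)) -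
      mn fun y => F (p, y)| ≤ η)
    (hc : ∀ y, |∑ p, (m true p - m false p) * F (p, y)| ≤ ζ) :
    |∑ c : A × ((Fin r → Bool) → Bool), (m true c.1 * kr (gd true c.1) (wt true c.1) c.2 -
      m false c.1 * kr (gd false c.1) (wt false c.1) c.2) * F c| ≤ ζ + 2 * η := by
  have h1 : ∀ b, |∑ c : A × ((Fin r → Bool) → Bool), m b c.1 * kr (gd b c.1) (wt b c.1) c.2 * F c -
      ∑ p, m b p * mn fun y => F (p, y)| ≤ η := by
    intro b
    have e1 : ∑ c : A × ((Fin r → Bool) → Bool), m b c.1 * kr (gd b c.1) (wt b c.1) c.2 * F c =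
        ∑ p, m b p * (if gd b p then wm (fun _ => none) (wt b p) (fun y => F (p, y)) else
          mn fun y => F (p, y)) := by
      rw [Fintype.sum_prod_type]
      refine Finset.sum_congr rfl fun p _ => ?_
      rw [← kr_sum, Finset.mul_sum]
      refine Finset.sum_congr rfl fun y _ => ?_
      ring
    rw [e1, ← Finset.sum_sub_distrib]
    refine (Finset.abs_sum_le_sum_abs _ _).trans ?_
    calc _ ≤ ∑ p, m b p * η := Finset.sum_le_sum fun p _ => by
            rw [← mul_sub, abs_mul, abs_of_nonneg (hm b p)]
            refine mul_le_mul_of_nonneg_left ?_ (hm b p)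
            by_cases hg : gd b p
            · rw [if_pos hg]
              exact hgd b p hg
            · rw [if_neg hg, sub_self, abs_zero]
              exact hη
      _ = η := by rw [← Finset.sum_mul, hm1, one_mul]
  have h2 : |∑ p, m true p * (mn fun y => F (p, y)) - ∑ p, m false p * mn fun y => F (p, y)| ≤ ζ := by
    have hN : (0 : ℝ) < 2 ^ Fintype.card (Fin r → Bool) := by positivity
    rw [mn_comm, mn_comm, ← sub_div, ← Finset.sum_sub_distrib, abs_div, abs_of_pos hN,
      div_le_iff₀ hN]
    refine (Finset.abs_sum_le_sum_abs _ _).trans ?_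
    calc _ ≤ ∑ _y : (Fin r → Bool) → Bool, ζ := Finset.sum_le_sum fun y _ => by
            rw [← Finset.sum_sub_distrib]
            have := hc y
            simp only [sub_mul] at this
            exact this
      _ = _ := by
            rw [Finset.sum_const, Finset.card_univ, nsmul_eq_mul, card_str, mul_comm]
            have : Fintype.card (Fin r → Bool) = 2 ^ r := by simp
            rw [this]
  have h3 := h1 true
  have h4 := h1 false
  have e5 : ∑ c : A × ((Fin r → Bool) → Bool), (m true c.1 * kr (gd true c.1) (wt true c.1) c.2 -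
      m false c.1 * kr (gd false c.1) (wt false c.1) c.2) * F c =
      ∑ c : A × ((Fin r → Bool) → Bool), m true c.1 * kr (gd true c.1) (wt true c.1) c.2 * F c -
      ∑ c : A × ((Fin r → Bool) → Bool), m false c.1 * kr (gd false c.1) (wt false c.1) c.2 * F c := by
    rw [← Finset.sum_sub_distrib]
    exact Finset.sum_congr rfl fun c _ => by ring
  rw [e5]
  rw [abs_le] at h2 h3 h4 ⊢
  constructor <;> linarith [h2.1, h2.2, h3.1, h3.2, h4.1, h4.2]

/-- A formula with fixed correction strings. -/
theorem fm_fix (h10 : T_FMS) {B Ω : Type} {rr : Ω → ℕ} {S t d : ℕ}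
    (f : (Bz B Ω rr → Bool) → Bool) (hf : Fm S t d f) (z : (Σ s : Ω, Fin (rr s) → Bool) → Bool) :
    Fm S t d fun T : B → Bool => f (Sum.elim T z) := by
  have h := h10 (Bz B Ω rr) B S t 1 d f (fun c y => Sum.elim y z c) (fun c => by
    rcases c with b | v
    · refine ⟨.node b (.leaf false) (.leaf true), by simp [Pool.Agent.H68.AC.DT.depth], fun y => ?_⟩
      change cond (y b) true false = y b
      cases y b <;> rfl
    · exact ⟨.leaf (z v), by simp [Pool.Agent.H68.AC.DT.depth], fun y => rfl⟩) hf
  rw [mul_one] at h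
  exact h

theorem exx (h1 : T_IDG) (h2 : T_MEG) (h3 : Pool.Agent.H6.NB.T_HYB)
    (h4 : Pool.Agent.H6.NB.T_CPY) (h5 : T_CHG) (h6 : T_CBX) (h7 : Pool.Agent.H6.NB.T_CLR)
    (h8 : Pool.Agent.H6.NB.T_DIF) (h9 : Pool.Agent.H6.NB.T_MUP) (h10 : T_FMS) : T_EXX := by
  classical
  intro W X B Ω _ _ _ _ _ _ nn qb rr T U D lev S t d h S' M w r k δ δm Λ gd wt γ η hSys hLow hPrm
    hbase hδ hX hS2 hSS htS hKM hMS hΩS hq hL12 hgd hwt hη hδm hsum1 hsum2
  -- weights
  let Tp : Ω → Type := fun s => (Fin (nn s) → VV (qb s) → Bool) × ((Fin (rr s) → Bool) → Bool)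
  let mm : Bool → ∀ s, (Fin (nn s) → VV (qb s) → Bool) → ℝ := fun b s p => ∏ i, mu b (qb s) (p i)
  have hmu0 : ∀ b q p, 0 ≤ mu b q p := fun b q p => (h9 b q).1 p
  have hmu1 : ∀ b q, ∑ p, mu b q p = 1 := fun b q => (h9 b q).2.1
  have hmm0 : ∀ b s p, 0 ≤ mm b s p := fun b s p => Finset.prod_nonneg fun i _ => hmu0 _ _ _
  have hmm1 : ∀ b s, ∑ p, mm b s p = 1 := by
    intro b s
    have := Fintype.sum_pow (fun p => mu b (qb s) p) (nn s)
    rw [hmu1, one_pow] at this
    exact this.symm
  let m : Bool → ∀ s, Tp s → ℝ := fun b s c => mm b s c.1 * kr (gd s b c.1) (wt s b c.1) c.2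
  have hm0 : ∀ b s p, 0 ≤ m b s p := fun b s p => mul_nonneg (hmm0 _ _ _) (kr_nonneg _ _ _)
  have hm1 : ∀ b s, ∑ p, m b s p = 1 := by
    intro b s
    have e1 : ∑ c : Tp s, m b s c = ∑ p, mm b s p := by
      rw [Fintype.sum_prod_type]
      refine Finset.sum_congr rfl fun p _ => ?_
      simp only [m]
      rw [← Finset.mul_sum, kr_total _ _ fun hg => (hwt s b p hg).1, mul_one]
    rw [e1, hmm1]
  let Wt : (Ω → Bool) → (∀ s, Tp s) → ℝ := fun κ P => ∏ s, m (κ s) s (P s)
  have hW0 : ∀ κ P, 0 ≤ Wt κ P := fun κ P => Finset.prod_nonneg fun s _ => hm0 _ _ _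
  have hW1 : ∀ κ, ∑ P, Wt κ P = 1 := fun κ => sum_prod_one (fun s p => m (κ s) s p) fun s => hm1 _ _
  -- the two parts
  let cp : (∀ s, Tp s) → Blk nn qb := fun P s => (P s).1
  let zp : (∀ s, Tp s) → (Σ s : Ω, Fin (rr s) → Bool) → Bool := fun P v => (P v.1).2 v.2
  let Tz : W → (∀ s, Tp s) → Bz B Ω rr → Bool := fun p P => Sum.elim (T p) (zp P)
  let Uz : W → (∀ s, Tp s) → X → Bz B Ω rr → Bool := fun p P x => Sum.elim (U p x) (zp P)
  -- the event
  let F : W → (Ω → Bool) → (∀ s, Tp s) → ℝ := fun p e P =>
    bi (decide (¬ TyG (accG D (cp P)) lev h k h (Tz p P) (Uz p P) e))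
  set TT : ℝ := (Fintype.card W : ℝ) * 2 ^ Fintype.card Ω with hTT
  have hTT0 : 0 < TT := by
    have : 0 < Fintype.card W := Fintype.card_pos
    positivity
  -- Step 1 and 2
  have hstep : ∀ p : W, ∑ P, ∑ κ, Wt κ P * F p (elG (accG D (cp P)) (Tz p P) κ h) P ≤
      ∑ e, (∑ P, Wt (fun _ => false) P * F p e P + 1 / 4) := by
    intro p
    have e1 : ∀ P, ∑ κ, Wt κ P * F p (elG (accG D (cp P)) (Tz p P) κ h) P =
        ∑ e, Wt (thG (accG D (cp P)) (Tz p P) e) P * F p e P := by
      intro P
      exact h5 (Bz B Ω rr) Ω (accG D (cp P)) lev h (Tz p P) (fun κ e => Wt κ P * F p e P)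
        (h2 (Bz B Ω rr) Ω nn qb D lev S t d h hSys (cp P)).1
    rw [Finset.sum_congr rfl fun P _ => e1 P, Finset.sum_comm]
    refine Finset.sum_le_sum fun e _ => ?_
    have hhyb := h3 Ω Tp lev (fun P s => thG (accG D (cp P)) (Tz p P) e s) m (fun P => F p e P)
      (fun s => (nn s : ℝ) * ((Λ + 1) / √(2 ^ qb s)) + 2 * η s) hm0 hm1 (by
        intro P P' s hPP
        simp only [thG, accG]
        congr 1
        refine hLow s _ _ fun c hc => ?_
        match c, hc with
        | .cst b, _ => rfl
        | .bas (.inl x), _ => rfl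
        | .bas (.inr v), hc =>
          change (P v.1).2 v.2 = (P' v.1).2 v.2
          rw [hPP v.1 hc]
        | .key s', _ => rfl
        | .blk s' i v, hc =>
          change (P s').1 i v = (P' s').1 i v
          rw [hPP s' hc]) (by
        intro P s
        have hone := one_inst (r := rr s) (fun b => mm b s) (gd s) (wt s)
          (fun c => F p e (Function.update P s c)) (η s)
          ((nn s : ℝ) * ((Λ + 1) / √(2 ^ qb s))) (hη s) (fun b => hmm0 b s) (fun b => hmm1 b s)
          (by
            intro b q hg
            refine (hwt s b q hg).2 (fun y => decide (¬ TyG (accG D (cp (Function.update P s (q, y))))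
              lev h k h (Tz p (Function.update P s (q, y))) (Uz p (Function.update P s (q, y))) e)) ?_
            refine h6 (Fin (rr s) → Bool) X (Bz B Ω rr) Ω nn qb D lev S t d h S' M k hSys hS2 hSS htS
              hKM hMS hΩS hX (fun y => Tz p (Function.update P s (q, y)))
              (fun y => Uz p (Function.update P s (q, y))) e
              (fun y => cp (Function.update P s (q, y))) ?_ ?_ ?_
            · intro b'
              rcases b' with b' | ⟨s', v⟩
              · exact Or.inl ⟨T p b', fun y => rfl⟩
              · by_cases hs : s' = s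
                · subst hs
                  exact Or.inr ⟨v, fun y => by simp [Tz, zp]⟩
                · exact Or.inl ⟨(P s').2 v, fun y => by
                    simp [Tz, zp, Function.update_of_ne hs]⟩
            · intro x b'
              rcases b' with b' | ⟨s', v⟩
              · exact Or.inl ⟨U p x b', fun y => rfl⟩
              · by_cases hs : s' = s
                · subst hs
                  exact Or.inr ⟨v, fun y => by simp [Uz, zp]⟩
                · exact Or.inl ⟨(P s').2 v, fun y => by
                    simp [Uz, zp, Function.update_of_ne hs]⟩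
            · intro s' i v
              by_cases hs : s' = s
              · subst hs
                exact Or.inl ⟨q i v, fun y => by simp [cp]⟩
              · exact Or.inl ⟨(P s').1 i v, fun y => by
                  simp [cp, Function.update_of_ne hs]⟩)
          (by
            intro y
            have hcpy := h4 (nn s) (VV (qb s) → Bool) (mu true (qb s)) (mu false (qb s))
              (fun q => F p e (Function.update P s (q, y))) ((Λ + 1) / √(2 ^ qb s)) (hmu0 _ _)
              (hmu0 _ _) (hmu1 _ _) (hmu1 _ _) (by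
                intro P' i
                have hcl : Cl (VV (qb s)) S' ((d + 5) * h + 2) fun q =>
                    decide (¬ TyG (accG D (cp (Function.update P s (Function.update P' i q, y))))
                      lev h k h (Tz p (Function.update P s (Function.update P' i q, y)))
                      (Uz p (Function.update P s (Function.update P' i q, y))) e) := by
                  refine h6 (VV (qb s)) X (Bz B Ω rr) Ω nn qb D lev S t d h S' M k hSys hS2 hSS htS
                    hKM hMS hΩS hX
                    (fun q => Tz p (Function.update P s (Function.update P' i q, y)))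
                    (fun q => Uz p (Function.update P s (Function.update P' i q, y))) e
                    (fun q => cp (Function.update P s (Function.update P' i q, y))) ?_ ?_ ?_
                  · intro b'
                    rcases b' with b' | ⟨s', v⟩
                    · exact Or.inl ⟨T p b', fun y => rfl⟩
                    · by_cases hs : s' = s
                      · subst hs
                        exact Or.inl ⟨y v, fun q => by simp [Tz, zp]⟩
                      · exact Or.inl ⟨(P s').2 v, fun q => by
                          simp [Tz, zp, Function.update_of_ne hs]⟩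
                  · intro x b'
                    rcases b' with b' | ⟨s', v⟩
                    · exact Or.inl ⟨U p x b', fun y => rfl⟩
                    · by_cases hs : s' = s
                      · subst hs
                        exact Or.inl ⟨y v, fun q => by simp [Uz, zp]⟩
                      · exact Or.inl ⟨(P s').2 v, fun q => by
                          simp [Uz, zp, Function.update_of_ne hs]⟩
                  · intro s' i' v
                    by_cases hs : s' = s
                    · subst hs
                      by_cases hi : i' = i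
                      · subst hi
                        exact Or.inr ⟨v, fun q => by simp [cp]⟩
                      · exact Or.inl ⟨P' i' v, fun q => by
                          simp [cp, Function.update_of_ne hi]⟩
                    · exact Or.inl ⟨(P s').1 i' v, fun q => by
                        simp [cp, Function.update_of_ne hs]⟩
                refine h8 (qb s) (fun q => F p e (Function.update P s (Function.update P' i q, y))) Λ
                  (hq s) ?_ ?_
                · intro ρ
                  exact hL12 s _ (h7 (VV (qb s)) S' ((d + 5) * h + 2) _ ρ hcl)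
                · intro q
                  have := bi_le (decide (¬ TyG
                    (accG D (cp (Function.update P s (Function.update P' i q, y)))) lev h k h
                    (Tz p (Function.update P s (Function.update P' i q, y)))
                    (Uz p (Function.update P s (Function.update P' i q, y))) e))
                  rw [abs_le]
                  exact ⟨by linarith [this.1], this.2⟩)
            exact hcpy)
        exact hone)
    have := (abs_le.mp hhyb).2
    linarith
  -- Step 3
  have hcount : ∀ P, ∑ p : W, ∑ e, F p e P ≤ TT / 4 := by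
    intro P
    have e1 : ∑ p : W, ∑ e, F p e P = ((univ.filter fun p : W × (Ω → Bool) =>
        ¬ TyG (accG D (cp P)) lev h k h (Tz p.1 P) (Uz p.1 P) p.2).card : ℝ) := by
      rw [Finset.card_filter, Fintype.sum_prod_type]
      push_cast
      refine Finset.sum_congr rfl fun p _ => Finset.sum_congr rfl fun e _ => ?_
      simp only [F, bi, decide_eq_true_eq]
    rw [e1]
    have hM := h2 (Bz B Ω rr) Ω nn qb D lev S t d h hSys (cp P)
    have hb : ∀ f : (Bz B Ω rr → Bool) → Bool, Fm S t d f →
        ((univ.filter fun p : W => k 0 < (univ.filter fun x =>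
          f (Sum.elim (U p x) (zp P)) ≠ f (Sum.elim (T p) (zp P))).card).card : ℝ) ≤
          δ 0 * Fintype.card W := by
      intro f hf
      exact hbase (fun T' => f (Sum.elim T' (zp P))) (fm_fix h10 f hf (zp P))
    have e2 := h1 W X (Bz B Ω rr) Ω (fun p => Sum.elim (T p) (zp P))
      (fun p x => Sum.elim (U p x) (zp P)) (accG D (cp P)) lev h S t d
      w r k δ δm hM.1 hM.2 hPrm hb hδ
    refine e2.trans ?_
    rw [← hTT]
    nlinarith
  have hA : ∑ p : W, ∑ P, ∑ κ, Wt κ P * F p (elG (accG D (cp P)) (Tz p P) κ h) P ≤ TT / 2 := by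
    refine (Finset.sum_le_sum fun p _ => hstep p).trans ?_
    simp only [Finset.sum_add_distrib]
    have e1 : ∑ p : W, ∑ e : Ω → Bool, ∑ P, Wt (fun _ => false) P * F p e P ≤ TT / 4 := by
      have e2 : ∑ p : W, ∑ e : Ω → Bool, ∑ P, Wt (fun _ => false) P * F p e P =
          ∑ P, Wt (fun _ => false) P * ∑ p : W, ∑ e, F p e P := by
        simp only [Finset.mul_sum]
        rw [Finset.sum_congr rfl fun p _ => Finset.sum_comm]
        rw [Finset.sum_comm]
      rw [e2]
      calc _ ≤ ∑ P, Wt (fun _ => false) P * (TT / 4) :=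
            Finset.sum_le_sum fun P _ => mul_le_mul_of_nonneg_left (hcount P) (hW0 _ _)
        _ = _ := by rw [← Finset.sum_mul, hW1, one_mul]
    have e3 : ∑ _p : W, ∑ _e : Ω → Bool, (1 / 4 : ℝ) = TT / 4 := by
      simp only [Finset.sum_const, Finset.card_univ, Fintype.card_fun, Fintype.card_bool,
        nsmul_eq_mul]
      push_cast
      rw [hTT]
      ring
    linarith
  -- Step 5
  let φ : ∀ (κ : Ω → Bool) (s : Ω), Tp s → ℝ := fun κ s c =>
    if gd s (κ s) c.1 ∧ nt c.2 = wt s (κ s) c.1 then 0 else 1
  have hφ0 : ∀ κ s p, 0 ≤ φ κ s p := by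
    intro κ s p
    simp only [φ]
    split_ifs <;> norm_num
  have hB : ∑ _p : W, ∑ P, ∑ κ, Wt κ P * ∑ s, φ κ s (P s) ≤ TT / 4 := by
    have e1 : ∀ κ, ∑ P, Wt κ P * ∑ s, φ κ s (P s) ≤ 1 / 4 := by
      intro κ
      simp only [Finset.mul_sum]
      rw [Finset.sum_comm]
      refine le_trans (Finset.sum_le_sum fun s _ => ?_) hsum2
      have e2 := sum_prod_marg (fun s p => m (κ s) s p) (φ κ) (fun s => hm1 _ _) s
      rw [e2]
      refine le_trans (le_of_eq ?_) (hgd s (κ s))
      rw [Fintype.sum_prod_type]
      refine Finset.sum_congr rfl fun q _ => ?_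
      by_cases hg : gd s (κ s) q
      · rw [if_pos hg, mul_zero]
        refine Finset.sum_eq_zero fun y _ => ?_
        by_cases hy : nt y = wt s (κ s) q
        · simp only [φ, if_pos (And.intro hg hy), mul_zero]
        · simp only [m, kr, if_pos hg, if_neg hy, mul_zero, zero_mul]
      · rw [if_neg hg, mul_one]
        have e4 : ∀ y, φ κ s (q, y) = 1 := fun y => if_neg fun hh => hg hh.1
        simp only [e4, mul_one, m]
        rw [← Finset.mul_sum, kr_total _ _ fun hg' => absurd hg' hg, mul_one]
    have e3 : ∑ P, ∑ κ, Wt κ P * ∑ s, φ κ s (P s) ≤ 2 ^ Fintype.card Ω * (1 / 4) := by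
      rw [Finset.sum_comm]
      calc _ ≤ ∑ _κ : Ω → Bool, (1 / 4 : ℝ) := Finset.sum_le_sum fun κ _ => e1 κ
        _ = _ := by
          simp only [Finset.sum_const, Finset.card_univ, Fintype.card_fun, Fintype.card_bool,
            nsmul_eq_mul]
          push_cast
          ring
    calc _ ≤ ∑ _p : W, (2 ^ Fintype.card Ω * (1 / 4) : ℝ) := Finset.sum_le_sum fun p _ => e3
      _ = _ := by
        simp only [Finset.sum_const, Finset.card_univ, nsmul_eq_mul]
        rw [hTT]
        ring
  -- total mass
  have hmass : ∑ _p : W, ∑ P, ∑ κ, Wt κ P = TT := by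
    have e1 : ∑ P, ∑ κ, Wt κ P = 2 ^ Fintype.card Ω := by
      rw [Finset.sum_comm, Finset.sum_congr rfl fun κ _ => hW1 κ]
      simp
    rw [Finset.sum_congr rfl fun _ _ => e1]
    simp only [Finset.sum_const, Finset.card_univ, nsmul_eq_mul]
    rw [hTT]
  by_contra hno
  push Not at hno
  have hge : ∀ (p : W) P κ, (1 : ℝ) ≤ F p (elG (accG D (cp P)) (Tz p P) κ h) P +
      ∑ s, φ κ s (P s) := by
    intro p P κ
    by_cases ht : TyG (accG D (cp P)) lev h k h (Tz p P) (Uz p P)
        (elG (accG D (cp P)) (Tz p P) κ h)
    · obtain ⟨s, hs⟩ := hno p κ (cp P) (zp P) ht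
      have e1 : φ κ s (P s) = 1 := if_neg fun hh => hs hh.1 hh.2
      have e2 : φ κ s (P s) ≤ ∑ s, φ κ s (P s) :=
        Finset.single_le_sum (f := fun s => φ κ s (P s)) (fun s _ => hφ0 κ s _) (Finset.mem_univ s)
      have e3 := (bi_le (decide (¬ TyG (accG D (cp P)) lev h k h (Tz p P) (Uz p P)
        (elG (accG D (cp P)) (Tz p P) κ h)))).1
      simp only [F]
      linarith
    · have e1 : F p (elG (accG D (cp P)) (Tz p P) κ h) P = 1 := by
        simp [F, bi, ht]
      have e2 : 0 ≤ ∑ s, φ κ s (P s) := Finset.sum_nonneg fun s _ => hφ0 κ s _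
      linarith
  have hfin : TT ≤ TT / 2 + TT / 4 := by
    calc TT = ∑ _p : W, ∑ P, ∑ κ, Wt κ P := hmass.symm
      _ ≤ ∑ p : W, ∑ P, ∑ κ, (Wt κ P * F p (elG (accG D (cp P)) (Tz p P) κ h) P +
          Wt κ P * ∑ s, φ κ s (P s)) := by
        refine Finset.sum_le_sum fun p _ => Finset.sum_le_sum fun P _ =>
          Finset.sum_le_sum fun κ _ => ?_
        have := mul_le_mul_of_nonneg_left (hge p P κ) (hW0 κ P)
        rw [mul_one, mul_add] at this
        exact this
      _ = _ := by simp only [Finset.sum_add_distrib]
      _ ≤ _ := add_le_add hA hB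
  linarith

end Pool.Agent.H78.OX.EXX
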