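import Pool.Agent.H78.OX.Targets
import Pool.Agent.H70.OQ.Basic

/-!
# Few rows change the answer to a string
-/

set_option autoImplicit false

namespace Pool.Agent.H78.OX.FWX

open Finset Pool.Agent.H6.NB Pool.Agent.H70.OQ Pool.Agent.H70.EH Pool.Agent.H78.XQ Pool.Agent.H78.OX

/-- Few rows change the answer to a string of length at most `n ^ 2 ^ a`. -/
theorem fwx (hLKX : T_LKX) : T_FWX := by
  classical
  intro A hA k n a hn σ₀ O₀ O₁ h0 H κ P z h1 O hO M hM hK w hw
  have e1 := hLKX k A n (2 ^ a) σ₀ O₀ O₁ (tabT k H) κ P z hA hn h0 h1 w hw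
  have e2 := fun x => hLKX k A n (2 ^ a) σ₀ O₀ (O x) (tabU k H x) κ P z hA hn h0 (hO x) w hw
  rcases hc : clx k n (2 ^ a) O₀ w with b | (p | p) | s | ⟨s, i, v⟩
  · have : (univ.filter fun x => O x w ≠ O₁ w) = ∅ := by
      refine filter_eq_empty_iff.2 fun x _ => ?_
      rw [e1, e2 x, hc]; simp [vlG]
    rw [this]; simp
  · refine le_trans (card_le_card ?_) ((card_row k H p).trans hM)
    intro x hx
    rw [mem_filter] at hx ⊢
    refine ⟨mem_univ _, ?_⟩
    have := hx.2
    rw [e1, e2 x, hc] at this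
    exact this
  · have : (univ.filter fun x => O x w ≠ O₁ w) = ∅ := by
      refine filter_eq_empty_iff.2 fun x _ => ?_
      rw [e1, e2 x, hc]; simp [vlG]
    rw [this]; simp
  · refine le_trans (card_le_card ?_) (hK s)
    intro x hx
    rw [mem_filter] at hx ⊢
    refine ⟨mem_univ _, ?_⟩
    have := hx.2
    rw [e1, e2 x, hc] at this
    exact this
  · have : (univ.filter fun x => O x w ≠ O₁ w) = ∅ := by
      refine filter_eq_empty_iff.2 fun x _ => ?_
      rw [e1, e2 x, hc]; simp [vlG]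
    rw [this]; simp

end Pool.Agent.H78.OX.FWX
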