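import Pool.Agent.H78.OX.Targets
import Pool.Agent.H70.OQ.SGG
import Pool.Agent.H70.PX.Wfm

/-!
# SMX: one stage of the construction, for a machine
-/

set_option autoImplicit false

namespace Pool.Agent.H78.OX.SMX

open Finset Filter Pool.Agent.H6.NB Pool.Agent.H70.OQ Pool.Agent.H70.PX Pool.Agent.H78.OX

theorem arith1 {n c : ℕ} (hn : 2 ≤ n) : n ^ c + c ≤ n ^ (c + 1) := by
  have h1 : c ≤ n ^ c := (Nat.lt_two_pow_self.le).trans (Nat.pow_le_pow_left hn c)
  calc n ^ c + c ≤ n ^ c * 2 := by omega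
    _ ≤ n ^ c * n := Nat.mul_le_mul_left _ hn
    _ = n ^ (c + 1) := (pow_succ n c).symm

theorem arith2 {n c a t : ℕ} (hn : 2 ≤ n) (h : n ^ (4 * (c + 1)) + 4 * (c + 1) ≤ n ^ 2 ^ a)
    (ht : n ^ 2 ^ a ≤ t ^ 2) : 3 ≤ a ∧ n ^ c + c ≤ n ^ 2 ^ a ∧ n ^ c + c + 1 ≤ t ∧
    (n ^ c + c) ^ 2 ≤ n ^ 2 ^ (a - 1) := by
  have h0 := arith1 (c := c) hn
  have h2 : 2 ≤ n ^ (c + 1) := hn.trans (Nat.le_self_pow (by omega) n)
  have h4 : (n ^ (c + 1)) ^ 4 = n ^ (4 * (c + 1)) := by rw [← pow_mul]; ring_nf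
  have ha : 3 ≤ a := by
    have h5 : n ^ 4 < n ^ 2 ^ a := by
      have : n ^ 4 ≤ n ^ (4 * (c + 1)) := Nat.pow_le_pow_right (by omega) (by omega)
      omega
    have h6 : 4 < 2 ^ a := (Nat.pow_lt_pow_iff_right (by omega)).1 h5
    by_contra hh
    have : 2 ^ a ≤ 2 ^ 2 := Nat.pow_le_pow_right (by norm_num) (by omega)
    omega
  have hsq : ((n ^ (c + 1)) ^ 2) ^ 2 ≤ n ^ 2 ^ a := by
    rw [← pow_mul]
    change (n ^ (c + 1)) ^ 4 ≤ _
    rw [h4]; omega
  have h7 : (n ^ (c + 1)) ^ 2 ≤ t :=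
    (Nat.pow_le_pow_iff_left (by norm_num)).1 (hsq.trans ht)
  have h8 : (n ^ (c + 1)) ^ 2 ≤ n ^ 2 ^ (a - 1) := by
    refine (Nat.pow_le_pow_iff_left (n := 2) (by norm_num)).1 (hsq.trans (le_of_eq ?_))
    rw [← pow_mul, ← pow_succ, Nat.sub_add_cancel (by omega)]
  have h9 : n ^ (c + 1) + 1 ≤ (n ^ (c + 1)) ^ 2 := by nlinarith
  refine ⟨ha, ?_, by omega, (Nat.pow_le_pow_left h0 2).trans h8⟩
  have h10 : (n ^ (c + 1)) ^ 2 ≤ ((n ^ (c + 1)) ^ 2) ^ 2 := Nat.le_self_pow (by norm_num) _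
  omega

theorem hlx (hSPX : T_SPX) (hSPC : T_SPC) {A : List Bool → (List Bool → Bool) → Prop}
    {J n a : ℕ} {σ₀ O : List Bool → Bool} {H : Hid (Fin n → Bool) (Ys n) J}
    {κ : Om n (2 ^ a) → Bool} {P : Bkx n (2 ^ a)} {z : Zx n (2 ^ a)} {x : Fin n → Bool}
    (h1 : Bldg A (sdx J n (2 ^ a) σ₀ (tabU J H x) κ P z) O) :
    List.replicate n false ∈ hlang J O ↔ (List.ofFn x).head? = some true := by
  have hs : ∀ u : List Bool, u.length = n → (Special J O u ↔ u = List.ofFn x) := fun u hu =>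
    (Pool.Agent.H70.OQ.SGG.special_bld hSPC h1 J u).trans ((hSPX J n a σ₀ H κ P z u hu).2 x)
  unfold hlang
  simp only [Set.mem_ofPred_eq, List.length_replicate]
  constructor
  · rintro ⟨u, hu, hh, h⟩
    rw [← (hs u hu).1 h]
    exact hh
  · intro h
    exact ⟨List.ofFn x, by simp, h, (hs _ (by simp)).2 rfl⟩

open Classical in
theorem smx (hCFX : T_CFX) (hFMX : T_FMX) (hWFX : T_WFX) (hBLG : T_BLG) (hBUG : T_BUG)
    (hLAK : T_LAK) (hLVL : Pool.Agent.H6.NB.T_LVL) (hLKX : T_LKX) (hFXD : T_FXD) (hEXG : T_EXG)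
    (hMEG : T_MEG) (hDAX : T_DAX) (hSDX : T_SDX) (hSPX : T_SPX) (hSPC : T_SPC) : T_SMX := by
  intro k J c hkJ prog hs
  have hA : LocA (acck (k + 1) prog) := hLAK (k + 1) prog hs
  obtain ⟨a, ha⟩ := hCFX J (4 * (c + 1)) 1 (1 / 2) (by norm_num)
  filter_upwards [ha] with n hn W hWc σ₀ hσ
  obtain ⟨t, M, K, hn2, hnc, hn1, hnt, hM1, hKM, hfin, hcfg⟩ := hn
  obtain ⟨ha3, hc1, hc2, hc3⟩ := arith2 hn2 hnc hnt
  obtain ⟨O₀, h0⟩ := hBLG _ hA σ₀
  obtain ⟨D, hSys, hLowD, hD⟩ := hFMX (k + 1) (J + 1) (by omega) prog n a t O₀ hs hn2 hnt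
  -- the instance which is replaced
  have hs₀ : n ^ 2 ≤ (List.replicate (n ^ 2 ^ (a - 1)) false).length ∧
      (List.replicate (n ^ 2 ^ (a - 1)) false).length < n ^ 2 ^ a := by
    rw [List.length_replicate]
    constructor
    · refine Nat.pow_le_pow_right (by omega) ?_
      calc 2 = 2 ^ 1 := by norm_num
        _ ≤ 2 ^ (a - 1) := Nat.pow_le_pow_right (by norm_num) (by omega)
    · exact Nat.pow_lt_pow_right (by omega) (Nat.pow_lt_pow_right (by norm_num) (by omega))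
  let s₀ : Om n (2 ^ a) := ⟨List.replicate (n ^ 2 ^ (a - 1)) false, hs₀⟩
  have hlv₀ : lv n s₀.1 = a - 1 := by
    unfold lv
    change Nat.log 2 (Nat.log n (List.replicate (n ^ 2 ^ (a - 1)) false).length) = a - 1
    rw [List.length_replicate, Nat.log_pow (by omega), Nat.log_pow (by norm_num)]
  have hlv : ∀ s : Om n (2 ^ a), lv n s.1 ≤ lv n s₀.1 := by
    intro s
    have := (hLVL n a hn2).2 s
    rw [hlv₀]; omega
  obtain ⟨fW, hW1, hW2, hW3⟩ := hWFX (J + 1) (J + 1) n a t O₀ W hn2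
    (by rw [hWc]; exact hc2) s₀ (by
      rw [hWc]
      change _ ≤ (List.replicate (n ^ 2 ^ (a - 1)) false).length
      rw [List.length_replicate]; exact hc3)
  let D' : Om n (2 ^ a) → (Cgx (J + 1) n (2 ^ a) → Bool) → Bool := Function.update D s₀ fW
  have hD'0 : D' s₀ = fW := Function.update_self _ _ _
  have hD'1 : ∀ s, s ≠ s₀ → D' s = D s := fun s h => Function.update_of_ne h _ _
  have hLow' : LowD D' (fun s => lv n s.1) := by
    intro s y y' hy
    by_cases h : s = s₀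
    · subst h
      rw [hD'0]; exact hW2 y y' hy
    · rw [hD'1 s h]; exact hLowD s y y' hy
  have hSys' : Syg D' (fun s => lv n s.1) (2 ^ t) t (J + 1) a := by
    refine ⟨fun s => ?_, fun s y y' hy => ?_, hSys.lt⟩
    · by_cases h : s = s₀
      · rw [h, hD'0]; exact hW1
      · rw [hD'1 s h]; exact hSys.fm s
    · refine hLow' s y y' fun c hc => hy c ?_
      match c, hc with
      | .cst _, _ => trivial
      | .bas (.inl _), _ => trivial
      | .bas (.inr _), _ => trivial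
      | .key _, hc => exact hc
      | .blk _ _ _, hc => exact hc
  obtain ⟨H, κ, P, z, hTyp, hFit⟩ := hcfg D' hSys' hLow'
  have hLvl := (hMEG (Bt (J + 1) n (2 ^ a)) (Om n (2 ^ a)) (fun s => 2 ^ (2 * s.1.length))
    (fun s => qs s.1) D (fun s => lv n s.1) (2 ^ t) t (J + 1) a hSys P).1
  have hLvl' := (hMEG (Bt (J + 1) n (2 ^ a)) (Om n (2 ^ a)) (fun s => 2 ^ (2 * s.1.length))
    (fun s => qs s.1) D' (fun s => lv n s.1) (2 ^ t) t (J + 1) a hSys' P).1
  have hun := (hEXG (Bt (J + 1) n (2 ^ a)) (Om n (2 ^ a)) (accG D P)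
    (fun s => lv n s.1) a hLvl).2.1
  have hacc : ∀ s, s ≠ s₀ → accG D' P s = accG D P s := by
    intro s h
    unfold accG
    rw [hD'1 s h]
  have hupd := fun T κ => elG_upd hEXG hLvl hLvl' s₀ hlv hacc T κ
  obtain ⟨O₁, hO₁⟩ := hBLG _ hA (sdx (J + 1) n (2 ^ a) σ₀ (tabT (J + 1) H) κ P z)
  have hOx := fun x => hBLG _ hA (sdx (J + 1) n (2 ^ a) σ₀ (tabU (J + 1) H x) κ P z)
  choose O hO using hOx
  have e1 : (fun s : Om n (2 ^ a) => O₁ (key s.1)) = elG (accG D P) (Sum.elim (tabT (J + 1) H) z) κ a :=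
    hun (Sum.elim (tabT (J + 1) H) z) κ _ (hFXD _ hA (J + 1) n a hn2 σ₀ O₀ O₁ h0 _ κ P z hO₁ D hD)
  have ex1 : ∀ x, (fun s : Om n (2 ^ a) => O x (key s.1)) = elG (accG D P) (Sum.elim (tabU (J + 1) H x) z) κ a :=
    fun x => hun (Sum.elim (tabU (J + 1) H x) z) κ _
      (hFXD _ hA (J + 1) n a hn2 σ₀ O₀ (O x) h0 _ κ P z (hO x) D hD)
  -- the value of the machine
  have hval : ∀ (T : Nn n (J + 1) → Bool) (O' : List Bool → Bool),
      Bldg (acck (k + 1) prog) (sdx (J + 1) n (2 ^ a) σ₀ T κ P z) O' →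
      (fun s : Om n (2 ^ a) => O' (key s.1)) = elG (accG D P) (Sum.elim T z) κ a →
      (List.replicate n false ∈ W.lang O' ↔
        accG D' P s₀ (Sum.elim T z) (elG (accG D P) (Sum.elim T z) κ a) = true) := by
    intro T O' hO' he
    have e2 : accG D' P s₀ (Sum.elim T z) (elG (accG D P) (Sum.elim T z) κ a) =
        fW (vlG (Sum.elim T z) (fun s : Om n (2 ^ a) => O' (key s.1)) P) := by
      rw [← he]
      change D' s₀ (vlG (Sum.elim T z) (fun s : Om n (2 ^ a) => O' (key s.1)) P) = _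
      rw [hD'0]
    rw [e2, hW3]
    refine lang_congr W _ _ fun w hw => ?_
    rw [hWc] at hw
    exact hLKX (J + 1) _ n (2 ^ a) σ₀ O₀ O' T κ P z hA hn2 h0 hO' w (hw.trans hc1)
  -- the rows for which the value changes
  have hfew : (univ.filter fun x => ¬ (List.replicate n false ∈ W.lang (O x) ↔
      List.replicate n false ∈ W.lang O₁)).card ≤ M := by
    have ht := hTyp s₀ (hSys.lt s₀)
    refine le_trans (le_of_eq ?_) (ht.trans (hKM _ (hSys.lt s₀)))
    congr 1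
    unfold dsG
    refine filter_congr fun x _ => ?_
    have ee : thG (accG D' P) (Sum.elim (tabT (J + 1) H) z)
        (elG (accG D' P) (Sum.elim (tabT (J + 1) H) z) κ a) = κ := by
      funext s
      unfold thG
      rw [(hEXG (Bt (J + 1) n (2 ^ a)) (Om n (2 ^ a)) (accG D' P) (fun s => lv n s.1) a hLvl').1]
      generalize accG D' P s (Sum.elim (tabT (J + 1) H) z)
        (elG (accG D' P) (Sum.elim (tabT (J + 1) H) z) κ a) = b
      cases b <;> cases κ s <;> rfl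
    unfold dlG exG
    rw [ee, hupd, hupd, Function.update_self, Function.update_self,
      hval _ _ (hO x) (ex1 x), hval _ _ hO₁ e1]
    generalize accG D' P s₀ (Sum.elim (tabU (J + 1) H x) z)
      (elG (accG D P) (Sum.elim (tabU (J + 1) H x) z) κ a) = b
    generalize accG D' P s₀ (Sum.elim (tabT (J + 1) H) z)
      (elG (accG D P) (Sum.elim (tabT (J + 1) H) z) κ a) = b'
    cases b <;> cases b' <;> cases κ s₀ <;> simp
  have hMlt : 2 * M < 2 ^ n := by
    have h2n : (0 : ℝ) < 2 ^ n := by positivity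
    have e3 : (4 : ℝ) * (((1 : ℕ) : ℝ) * 2 ^ (((1 : ℝ) / 2 - 1 / 2) * n)) = 4 := by
      rw [sub_self, zero_mul, Real.rpow_zero]; norm_num
    rw [e3] at hfin
    have h6 : √((M : ℝ) / 2 ^ n) < 1 / 12 := by linarith
    have h7 : (M : ℝ) / 2 ^ n < (1 / 12) ^ 2 := by
      rw [← Real.sqrt_lt' (by norm_num)]; exact h6
    rw [div_lt_iff₀ h2n] at h7
    have h8 : (2 * M : ℝ) < 2 ^ n := by nlinarith
    exact_mod_cast h8
  have hgood : ∀ b : Bool, ∃ x : Fin n → Bool, (List.ofFn x).head? = some b ∧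
      (List.replicate n false ∈ W.lang (O x) ↔ List.replicate n false ∈ W.lang O₁) := by
    intro b
    obtain ⟨m, hm⟩ : ∃ m, n = m + 1 := ⟨n - 1, by omega⟩
    let f : (Fin m → Bool) → (Fin n → Bool) := fun y i =>
      (Fin.cons b y : Fin (m + 1) → Bool) (Fin.cast hm i)
    have hf : Function.Injective f := by
      intro y y' h
      have h' : (Fin.cons b y : Fin (m + 1) → Bool) = Fin.cons b y' := by
        funext i
        have := congrFun h (Fin.cast hm.symm i)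
        simpa [f] using this
      exact (Fin.cons_injective2 h').2
    have hhead : ∀ y, (List.ofFn (f y)).head? = some b := by
      intro y
      subst hm
      simp [f]
    by_contra hcon
    push Not at hcon
    have hsub : (univ : Finset (Fin m → Bool)).map ⟨f, hf⟩ ⊆
        univ.filter fun x => ¬ (List.replicate n false ∈ W.lang (O x) ↔
          List.replicate n false ∈ W.lang O₁) := by
      intro x hx
      rw [Finset.mem_map] at hx
      obtain ⟨y, -, rfl⟩ := hx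
      rw [mem_filter]
      refine ⟨mem_univ _, fun h => ?_⟩
      have h2 := hcon (f y) (hhead y)
      rcases h2 with ⟨h3, h4⟩ | ⟨h3, h4⟩
      · exact h4 (h.1 h3)
      · exact h3 (h.2 h4)
    have h3 := (card_le_card hsub).trans hfew
    rw [card_map, card_univ] at h3
    have h4 : Fintype.card (Fin m → Bool) = 2 ^ m := by simp
    rw [h4] at h3
    rw [hm, pow_succ] at hMlt
    omega
  obtain ⟨x₁, hb1, hx1⟩ := hgood true
  obtain ⟨x₀, hb0, hx0⟩ := hgood false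
  -- the choice of the row
  have hch : ∃ x, ¬ (List.replicate n false ∈ W.lang (O x) ↔
      List.replicate n false ∈ hlang (J + 1) (O x)) := by
    by_cases h : List.replicate n false ∈ W.lang O₁
    · refine ⟨x₀, fun hh => ?_⟩
      have h2 := (hlx hSPX hSPC (hO x₀)).1 (hh.1 (hx0.2 h))
      rw [hb0] at h2
      simp at h2
    · refine ⟨x₁, fun hh => ?_⟩
      exact h (hx1.1 (hh.2 ((hlx hSPX hSPC (hO x₁)).2 hb1)))
  obtain ⟨x, hx⟩ := hch
  refine ⟨sdx (J + 1) n (2 ^ a) σ₀ (tabU (J + 1) H x) κ P z, n ^ 2 ^ a,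
    (hSDX (J + 1) n a hn2 σ₀ _ κ P z).1, hDAX (J + 1) n a σ₀ hσ _ κ P z hFit,
    (hSDX (J + 1) n a hn2 σ₀ _ κ P z).2.1, fun σ' O' he hB hcor => hx ?_⟩
  have hOO : ∀ w : List Bool, w.length ≤ n ^ 2 ^ a → O' w = O x w :=
    hBUG _ σ' _ O' (O x) _ hA hB (hO x) he
  rw [← lang_congr W O' (O x) fun w hw => hOO w (by rw [hWc] at hw; exact hw.trans hc1), hcor]
  unfold hlang
  simp only [Set.mem_ofPred_eq, List.length_replicate]
  refine exists_congr fun u => and_congr_right fun hu => and_congr_right fun _ => ?_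
  refine hSPC (J + 1) _ _ u fun w hw => hOO _ ?_
  rw [List.length_cons, hw, hu]
  have : (2 ^ (J + 1 + 1) - 1) * n ≤ 2 ^ (J + 2) * n := Nat.mul_le_mul_right _ (Nat.sub_le _ _)
  omega

end Pool.Agent.H78.OX.SMX
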