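import Pool.Agent.H14.OX.LNX
import Pool.Agent.H14.OX.SPX
import Pool.Agent.H16.OX.COX
import Pool.Agent.H78.OX.FWX
import Pool.Agent.H4.OX.CBX
import Pool.Agent.H4.OX.CFX
import Pool.Agent.H4.OX.INX
import Pool.Agent.H4.OX.LKX
import Pool.Agent.H78.OX.HW2
import Pool.Agent.H47.OX.YXX
import Pool.Agent.H50.OX.WTX
import Pool.Agent.H51.OX.NMX
import Pool.Agent.H58.OX.SGX
import Pool.Agent.H58.OX.STX
import Pool.Agent.H65.OX.FXD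
import Pool.Agent.H65.OX.WFX
import Pool.Agent.H67.OX.DCX
import Pool.Agent.H71.OX.GDX
import Pool.Agent.H74.OX.LWX
import Pool.Agent.H78.OX.EXX
import Pool.Agent.H78.OX.FNX
import Pool.Agent.H78.OX.SMX
import Pool.Agent.H78.XQ.All
import Pool.Agent.H81.OX.DAX
import Pool.Agent.H86.OX.FMX
import Pool.Agent.H89.OX.EAX
import Pool.Agent.H91.OX.CLX
import Pool.Agent.H91.OX.SDX
import Pool.Agent.H70.PW.All

/-!
# Assembly of the modules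
-/

set_option autoImplicit false

namespace Pool.Agent.H78.OX

open Pool.Agent.H6.NB (pf_CLB pf_HYB pf_CPY pf_CLR pf_DIF pf_MUP pf_L12 pf_FIS pf_PHE pf_PHU pf_PHB pf_COD pf_LVL pf_BBV pf_PCG)
open Pool.Agent.H70.OQ (pf_IDG pf_MEG pf_CHG pf_FMS pf_EXG pf_CLG pf_TBL pf_PRG pf_NDV pf_NST pf_BUG pf_BLG pf_LAK pf_SPC pf_UNG)
open Pool.Agent.H78.XQ (pf_SWL pf_HOE pf_TRE pf_EXC pf_CWS pf_ITG pf_POW pf_MIX pf_GRO pf_ONE pf_COI)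

theorem pf_LNX : T_LNX := Pool.Agent.H14.OX.lnx pf_COD

theorem pf_CLX : T_CLX := Pool.Agent.H91.OX.clx_ pf_NST pf_COD pf_LNX

theorem pf_LKX : T_LKX := Pool.Agent.H4.OX.lkx pf_BUG pf_CLX pf_NST pf_LNX

theorem pf_LWX : T_LWX := Pool.Agent.H74.OX.lwx pf_CLX pf_LVL pf_LNX

theorem pf_FMX : T_FMX := Pool.Agent.H86.OX.fmx pf_LWX pf_LVL pf_FIS

theorem pf_WFX : T_WFX := Pool.Agent.H65.OX.wfx pf_LWX pf_FIS

theorem pf_FXD : T_FXD := Pool.Agent.H65.OX.fxd pf_CLX pf_LKX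

theorem pf_DAX : T_DAX := Pool.Agent.H81.OX.dax pf_CLX pf_LNX

theorem pf_FWX : T_FWX := FWX.fwx pf_LKX

theorem pf_SDX : T_SDX := Pool.Agent.H91.OX.sdx_ pf_CLX pf_NST pf_LNX

theorem pf_SPX : T_SPX := Pool.Agent.H14.OX.spx pf_CLX pf_NDV

theorem pf_HW2 : T_HW2 := HW2.hw2 pf_SWL pf_HOE pf_TRE pf_EXC

theorem pf_GDX : T_GDX :=
  Pool.Agent.H71.OX.gdx_ Pool.Agent.H70.EI.pf_CHA_EH pf_MUP pf_PHE pf_PHU pf_PHB

theorem pf_WTX : T_WTX := Pool.Agent.H50.OX.wtx_ pf_ITG pf_PHB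

theorem pf_COX : T_COX := Pool.Agent.H16.OX.cox pf_HW2 pf_WTX

theorem pf_NMX : T_NMX := Pool.Agent.H51.OX.nmx

theorem pf_CBX : T_CBX := Pool.Agent.H4.OX.cbx pf_EXG pf_MEG pf_CLG pf_CLB

theorem pf_EXX : T_EXX :=
  EXX.exx pf_IDG pf_MEG pf_HYB pf_CPY pf_CHG pf_CBX pf_CLR pf_DIF pf_MUP pf_FMS

theorem pf_CFX : T_CFX :=
  Pool.Agent.H4.OX.cfx pf_EXX pf_TBL pf_PRG pf_L12 pf_FIS pf_GDX pf_WTX pf_COX pf_NMX

theorem pf_EAX : T_EAX := Pool.Agent.H89.OX.eax pf_POW pf_MIX pf_GRO pf_ONE pf_COI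

theorem pf_YXX : T_YXX := Pool.Agent.H47.OX.yxx pf_EAX

theorem pf_DCX : T_DCX := Pool.Agent.H67.OX.dcx pf_COD

theorem pf_INX : T_INX := Pool.Agent.H4.OX.inx pf_NDV pf_NST pf_ITG pf_LNX pf_COD

theorem pf_STX : T_STX :=
  Pool.Agent.H58.OX.stx pf_CFX pf_FMX pf_BLG pf_LAK pf_FXD pf_EXG pf_MEG pf_DAX pf_FWX

theorem pf_SGX : T_SGX :=
  Pool.Agent.H58.OX.sgx pf_LAK pf_STX pf_BBV pf_PCG pf_BUG pf_SDX pf_SPX pf_SPC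

theorem pf_SQX : T_SQX :=
  Pool.Agent.H58.OX.sqx pf_LAK pf_STX pf_BBV pf_PCG pf_BUG pf_SDX pf_SPX pf_SPC

theorem pf_SMX : T_SMX :=
  SMX.smx pf_CFX pf_FMX pf_WFX pf_BLG pf_BUG pf_LAK pf_LVL pf_LKX pf_FXD pf_EXG pf_MEG pf_DAX
    pf_SDX pf_SPX pf_SPC

theorem pf_FNX : T_FNX :=
  FNX.fnx pf_UNG pf_LAK Pool.Agent.H70.PW.pf_LIM pf_DCX pf_SPC pf_INX pf_SGX pf_SQX pf_SMX pf_YXX

end Pool.Agent.H78.OX
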