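import Pool.Agent.H78.XQ.Stmt

/-!
# For every k an oracle with Σ_k in EQP, Σ_(k+1) ∩ Π_(k+1) not in BQP and Π_(k+1) not in QMA: definitions

The oracle machines, the languages `hlang`, the strings `inst`, `key` are those of
`Pool.Agent.H6.NB.Stmt` and `Pool.Agent.H70.OQ.Stmt`; the quantum algorithms `one`, `coin` and the
constructions `pow`, `mix`, `grov` are those of `Pool.Agent.H78.XQ.Stmt`.
-/

set_option autoImplicit false

namespace Pool.Agent.H78.OX

open Pool.Agent.H6.NB Pool.Agent.H70.OQ Pool.Agent.H78.XQ

/-! ### The exact quantum algorithm -/

/-- The number of parallel runs. -/
def rnx (s : List Bool) : ℕ := 2048 * (qs s + 3) ^ 2 * (s.length + 1)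

/-- The length of the labels of the bits of the correction string. -/
def wlx (s : List Bool) : ℕ := rnx s * (2 * s.length + 3 * qs s)

/-- The quantum algorithm for the instance `s`: one Grover iteration for the following algorithm. Toss a
fair coin; in the first case do `rnx s` parallel runs of the two-query circuits with random copies and
accept iff no run has the outcome zero; in the second case accept iff the oracle contains `wps s z`, where
`z` is a uniformly random string of length `wlx s`. There are `6` rounds of parallel queries. -/
noncomputable def exc (s : List Bool) : XAlg :=
  grov (mix (Pool.Agent.H78.XQ.pow (one s) (rnx s)) (coin s (wlx s)))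

/-- The oracle which contains `w` iff `O` contains `11w`. -/
def sh (O : List Bool → Bool) : List Bool → Bool := fun w => O (true :: true :: w)

/-- The acceptance probability of the following quantum algorithm on the instance `s`: run `exc s`, where
each query `w` is replaced by the query `11w`; query the oracle at the string `key s`; accept iff exactly
one of the following holds: `exc s` accepts, `O (key s)` is true. -/
noncomputable def yesX (O : List Bool → Bool) (s : List Bool) : ℝ :=
  if O (key s) then 1 - (exc s).prob (sh O) else (exc s).prob (sh O)

/-! ### Quantum verifiers -/

/-- The quantum query algorithm `Q` with the initial state `ψ`. -/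
noncomputable def wth (Q : QAlg) (ψ : Q.basis → ℂ) (h : ∑ i, ‖ψ i‖ ^ 2 = 1) : QAlg :=
  { Q with
    init := ψ
    norm_init := h }

/-- A quantum verifier: a quantum query algorithm `alg`, whose initial state is a witness. The witnesses
are the unit vectors whose support is contained in the set `wit` of basis states. (For instance `wit`
consists of the basis states for which some of the qubits, the work qubits, are zero.) -/
structure QVer where
  /-- the algorithm -/
  alg : QAlg
  /-- the basis states which span the space of the witnesses -/
  wit : Finset alg.basis

/-- The verifier gives the right answer to the question whether `x` belongs to the language `L`: if it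
does, some witness is accepted with probability at least `2/3`; if it does not, every witness is accepted
with probability at most `1/3`. -/
def VCorrect (R : QVer) (O : List Bool → Bool) (L : Set (List Bool)) (x : List Bool) : Prop :=
  (x ∈ L → ∃ (ψ : R.alg.basis → ℂ) (h : ∑ i, ‖ψ i‖ ^ 2 = 1), (∀ i, i ∉ R.wit → ψ i = 0) ∧
    2 / 3 ≤ (wth R.alg ψ h).prob O) ∧
  (x ∉ L → ∀ (ψ : R.alg.basis → ℂ) (h : ∑ i, ‖ψ i‖ ^ 2 = 1), (∀ i, i ∉ R.wit → ψ i = 0) →
    (wth R.alg ψ h).prob O ≤ 1 / 3)

end Pool.Agent.H78.OX
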