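import Pool.Agent.H70.OQ.Targets
import Pool.Agent.H78.OX.Stmt
import Pool.Agent.H78.XQ.Targets

/-!
# For every k an oracle with Σ_k in EQP, Σ_(k+1) ∩ Π_(k+1) not in BQP: definitions for the proof
-/

set_option autoImplicit false

namespace Pool.Agent.H78.OX

open Finset Pool.Agent.H6.NB Pool.Agent.H70.OQ Pool.Agent.H70.EH Pool.Agent.H78.XQ

/-! ### Tables with correction strings -/

/-- The positions of the table and of the correction strings. -/
abbrev Bz (B Ω : Type) (r : Ω → ℕ) : Type := B ⊕ (Σ s : Ω, Fin (r s) → Bool)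

/-- The position belongs to the constants, the table, or to an instance of level below `j`. -/
def LwX {B Ω : Type} {nn qb r : Ω → ℕ} (lev : Ω → ℕ) (j : ℕ) : PosG (Bz B Ω r) Ω nn qb → Prop
  | .cst _ => True
  | .bas (.inl _) => True
  | .bas (.inr z) => lev z.1 < j
  | .key s => lev s < j
  | .blk s _ _ => lev s < j

/-- The functions `D` depend only on lower positions. -/
def LowD {B Ω : Type} {nn qb r : Ω → ℕ} (D : Ω → (PosG (Bz B Ω r) Ω nn qb → Bool) → Bool)
    (lev : Ω → ℕ) : Prop := ∀ s y y', (∀ c, LwX lev (lev s) c → y c = y' c) → D s y = D s y'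

/-! ### The content of a block -/

/-- The copies `P` of the instance `s` say the bit `b` very clearly. -/
def gdx (s : List Bool) (b : Bool) (P : Fin (2 ^ (2 * s.length)) → VV (qs s) → Bool) : Prop :=
  (b = false → avg (qs s) P ≤ 1 / 2 ^ (4 * s.length)) ∧
    (b = true → eps2 (qs s) ^ 2 / 8 ≤ avg (qs s) P)

/-- The weight of the correction string. -/
noncomputable def wtx (s : List Bool) (b : Bool) (P : Fin (2 ^ (2 * s.length)) → VV (qs s) → Bool) :
    ℕ := ⌊((if b then 1 / 2 else 3 / 2) - kap (qs s) (rnx s) P) * 2 ^ wlx s⌋₊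

/-- The deviation of the weight of the correction string. -/
noncomputable def dvx (s : List Bool) : ℝ := rnx s / 2 ^ (4 * s.length)

/-- The error of the replacement of a correction string. -/
noncomputable def erx (s : List Bool) (S D w : ℕ) : ℝ :=
  (12 * w * dvx s + 4 * w ^ 2 / 2 ^ wlx s) * (128 * (w : ℝ)) ^ D +
    (((S : ℝ) + 1) ^ D / 2 ^ w + 4 * Real.exp (-(2 ^ wlx s * dvx s ^ 2 / 4)))

/-- The content of the block of the instance `s` fits to the bit `b`. -/
def FitX (s : List Bool) (b : Bool) (P : Fin (2 ^ (2 * s.length)) → VV (qs s) → Bool)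
    (y : (Fin (wlx s) → Bool) → Bool) : Prop := Fit (qs s) (rnx s) (wlx s) b P y

/-! ### Oracles -/

/-- The seed allows to decide the instance `s` exactly. -/
def DecX (σ : List Bool → Bool) (s : List Bool) : Prop :=
  Fit (qs s) (rnx s) (wlx s) (σ (key s)) (cps (sh σ) s) fun z => sh σ (wps s (List.ofFn z))

/-- The strings of length `l` are numbered. -/
noncomputable def eu (l : ℕ) : Fin (2 ^ l) ≃ (Fin l → Bool) :=
  (Fintype.equivFinOfCardEq (by simp)).symm

/-- The position of the entry `v` of the copy number `i` of the instance `s`. -/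
noncomputable def bx (s : List Bool) (i : Fin (2 ^ (2 * s.length))) (v : VV (qs s)) : List Bool :=
  true :: true :: pos s (List.ofFn (eu (2 * s.length) i)) (List.ofFn v.2) v.1

/-- The position of the bit number `z` of the correction string of the instance `s`. -/
def wx (s : List Bool) (z : Fin (wlx s) → Bool) : List Bool := true :: true :: wps s (List.ofFn z)

/-- The positions of the table and of the correction strings of the stage `n`. -/
abbrev Bt (J n a : ℕ) : Type := Bz (Nn n J) (Om n a) fun s => wlx s.1

/-- The positions of the stage `n`. -/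
abbrev Cgx (J n a : ℕ) : Type := PosG (Bt J n a) (Om n a) (fun s => 2 ^ (2 * s.1.length)) fun s => qs s.1

/-- The copies of the stage `n`. -/
abbrev Bkx (n a : ℕ) : Type := Blk (fun s : Om n a => 2 ^ (2 * s.1.length)) fun s => qs s.1

/-- The correction strings of the stage `n`. -/
abbrev Zx (n a : ℕ) : Type := (Σ s : Om n a, Fin (wlx s.1) → Bool) → Bool

open Classical in
/-- The position of a string; the strings which do not belong to the stage have the value given by `o`. -/
noncomputable def clx (J n a : ℕ) (o : List Bool → Bool) (w : List Bool) : Cgx J n a :=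
  if h : ∃ p : Nn n J, w = false :: nstr n J p then .bas (.inl h.choose)
  else if h : ∃ s : Om n a, w = key s.1 then .key h.choose
  else if h : ∃ p : Σ s : Om n a, Fin (2 ^ (2 * s.1.length)) × VV (qs s.1),
      w = bx p.1.1 p.2.1 p.2.2 then .blk h.choose.1 h.choose.2.1 h.choose.2.2
  else if h : ∃ p : Σ s : Om n a, Fin (wlx s.1) → Bool, w = wx p.1.1 p.2 then .bas (.inr h.choose)
  else .cst (o w)

/-- The seed of the stage. -/
noncomputable def sdx (J n a : ℕ) (σ₀ : List Bool → Bool) (T : Nn n J → Bool) (κ : Om n a → Bool)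
    (P : Bkx n a) (z : Zx n a) : List Bool → Bool :=
  fun w => vlG (Sum.elim T z) κ P (clx J n a σ₀ w)

end Pool.Agent.H78.OX
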