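import Pool.Agent.H78.OX.Targets

/-!
# The size of the exact quantum algorithm
-/

set_option autoImplicit false

namespace Pool.Agent.H78.OX.SZX

open Finset Pool.Agent.H78.XQ Pool.Agent.H6.NB Pool.Agent.H70.OQ Pool.Agent.H70.EH Pool.Agent.H70.EI
open Pool.Agent.H78.OX

theorem rnx_le (s : List Bool) : rnx s ≤ 2048 * 103 ^ 2 * (s.length + 1) ^ 3 := by
  unfold rnx
  have h1 : qs s + 3 ≤ 103 * (s.length + 1) := by
    unfold qs
    omega
  calc 2048 * (qs s + 3) ^ 2 * (s.length + 1)
      ≤ 2048 * (103 * (s.length + 1)) ^ 2 * (s.length + 1) := by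
        refine Nat.mul_le_mul (Nat.mul_le_mul_left _ (Nat.pow_le_pow_left h1 2)) le_rfl
    _ = _ := by ring

theorem wlx_le (s : List Bool) : wlx s ≤ 2048 * 103 ^ 2 * 300 * (s.length + 1) ^ 4 := by
  unfold wlx
  have h1 : 2 * s.length + 3 * qs s ≤ 300 * (s.length + 1) := by
    unfold qs
    omega
  calc rnx s * (2 * s.length + 3 * qs s)
      ≤ (2048 * 103 ^ 2 * (s.length + 1) ^ 3) * (300 * (s.length + 1)) :=
        Nat.mul_le_mul (rnx_le s) h1
    _ = _ := by ring

/-- The numbers of queries per basis state and the lengths of the queries, with parameters. -/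
theorem small_gen (s : List Bool) (R W m : ℕ) (hR : R ≤ m) (h1m : 1 ≤ m)
    (hpos : ∀ (u : Fin (2 * s.length) → Bool) (v : Fin (qs s) → Bool) (b : Bool),
      (pos s (List.ofFn u) (List.ofFn v) b).length ≤ m)
    (hwps : ∀ z : Fin W → Bool, (wps s (List.ofFn z)).length ≤ m) :
    (grov (mix (Pool.Agent.H78.XQ.pow (one s) R) (coin s W))).T = 6 ∧
      (grov (mix (Pool.Agent.H78.XQ.pow (one s) R) (coin s W))).Small m := by
  refine ⟨rfl, ?_⟩
  intro i
  rcases i with z | ⟨z, b⟩
  · show ((List.ofFn fun i => (one s).query (z i)).flatten).length ≤ _ ∧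
      ∀ w ∈ (List.ofFn fun i => (one s).query (z i)).flatten, w.length ≤ _
    constructor
    · rw [List.length_flatten]
      have h1 : (List.map List.length (List.ofFn fun i => (one s).query (z i))).sum = R := by
        rw [List.map_ofFn, List.sum_ofFn]
        have h2 : ∀ i : Fin R,
            (List.length ∘ fun i => (one s).query (z i)) i = 1 := fun i => rfl
        rw [Finset.sum_congr rfl fun i _ => h2 i]
        simp
      rw [h1]
      exact hR
    · intro w hw2
      rw [List.mem_flatten] at hw2
      obtain ⟨l, hl, hwl⟩ := hw2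
      rw [List.mem_ofFn] at hl
      obtain ⟨i, rfl⟩ := hl
      have h3 : w = pos s (List.ofFn (z i).1) (List.ofFn (z i).2.1) (z i).2.2 :=
        List.mem_singleton.1 hwl
      rw [h3]
      exact hpos _ _ _
  · show (if b then [wps s (List.ofFn z)] else []).length ≤ _ ∧
      ∀ w ∈ (if b then [wps s (List.ofFn z)] else []), w.length ≤ _
    cases b
    · simp
    · constructor
      · simp only [if_true, List.length_singleton]
        exact h1m
      · intro w hw2
        simp only [if_true, List.mem_singleton] at hw2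
        rw [hw2]
        exact hwps _

/-- There are `6` rounds; the numbers of queries per basis state and the lengths of the queries are
polynomial. -/
theorem szx (hCOD : Pool.Agent.H6.NB.T_COD) (s : List Bool) :
    (exc s).T = 6 ∧ (exc s).Small (2 * 10 ^ 10 * (s.length + 1) ^ 4) := by
  have hp : 1 ≤ (s.length + 1) ^ 4 := Nat.one_le_pow _ _ (Nat.succ_pos _)
  have hp1 : s.length + 1 ≤ (s.length + 1) ^ 4 := Nat.le_self_pow (by norm_num) _
  have hp3 : (s.length + 1) ^ 3 ≤ (s.length + 1) ^ 4 :=
    Nat.pow_le_pow_right (Nat.succ_pos _) (by norm_num)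
  have hr := rnx_le s
  have hw := wlx_le s
  refine small_gen s (rnx s) (wlx s) _ (by omega) (by omega) ?_ ?_
  · intro u v b
    unfold pos
    rw [hCOD.2, List.length_append, List.length_ofFn, List.length_ofFn]
    have hb : b.toNat ≤ 1 := Bool.toNat_le b
    unfold qs
    omega
  · intro z
    unfold wps
    rw [hCOD.2, List.length_ofFn]
    omega

end Pool.Agent.H78.OX.SZX
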